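import Pool.Agent.U660.Bil.Final

/-!
# MP_d967a3_an, Q1: billiard tables of `ℝⁿ`, `n ≥ 3`, other than ellipsoids, with invariant
hypersurfaces

The definitions used by the statement (`Euc`, `IsTable`, `IsEllipsoid`, `lines`, `billiardMap`,
`IsInvariantHypersurface`) are in `Pool/Agent/H703R3/MBDefs.lean`; `mom`, `AgreesWithBall` and
`level` are in `Pool/Agent/U660/Bil/Ball.lean`:

* `mom i j (p, v) = p_i v_j - p_j v_i` is the angular momentum of the oriented line `(p, v)`;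
* `AgreesWithBall Ω i j c` says that `Ω` and the closed unit ball have the same points in the region
  `x_i² + x_j² ≥ c²`;
* `level Ω i j c` is the set of the oriented lines of the phase space of `Ω` with `mom i j = c`.
-/

set_option autoImplicit false

open Set
open scoped RealInnerProductSpace ContDiff

namespace Pool.Agent.Results.MP_d967a3_an.InnerHypersurface

open Pool.Agent.H703R3.MB Pool.Agent.U660.Bil

/-- Let `n ≥ 3`, `i ≠ j` and `0 < c₀ < 1`. Every billiard table, other than the unit ball, that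
agrees with the unit ball where `x_i² + x_j² ≥ c₀²` is not an ellipsoid, and all the level sets
`mom i j = c`, `c₀ < |c| < 1`, are invariant hypersurfaces of its billiard map. There are many such
tables: if `φ` is any compactly supported `C^∞` function that vanishes where `x_i² + x_j² ≥ c₀²` but
not on the whole unit sphere (and there are such functions), then the body `‖x‖² + ε φ(x) ≤ 1` is
one of them for all small `ε ≠ 0`. -/
theorem result (n : ℕ) (hn : 3 ≤ n) (i j : Fin n) (hij : i ≠ j) (c₀ : ℝ) (h0 : 0 < c₀)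
    (h1 : c₀ < 1) :
    (∀ Ω : Set (Euc n), IsTable Ω → AgreesWithBall Ω i j c₀ → Ω ≠ Metric.closedBall 0 1 →
      ¬ IsEllipsoid Ω ∧
      ∀ c : ℝ, c₀ < |c| → |c| < 1 → IsInvariantHypersurface Ω (level Ω i j c)) ∧
    (∀ φ : Euc n → ℝ, ContDiff ℝ ∞ φ → HasCompactSupport φ →
      (∀ x : Euc n, c₀ ^ 2 ≤ x i ^ 2 + x j ^ 2 → φ x = 0) → (∃ x : Euc n, ‖x‖ = 1 ∧ φ x ≠ 0) →
      ∃ ε₀ : ℝ, 0 < ε₀ ∧ ∀ ε : ℝ, ε ≠ 0 → |ε| < ε₀ →
        IsTable {x : Euc n | ‖x‖ ^ 2 + ε * φ x ≤ 1} ∧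
        AgreesWithBall {x : Euc n | ‖x‖ ^ 2 + ε * φ x ≤ 1} i j c₀ ∧
        {x : Euc n | ‖x‖ ^ 2 + ε * φ x ≤ 1} ≠ Metric.closedBall 0 1) ∧
    ∃ φ : Euc n → ℝ, ContDiff ℝ ∞ φ ∧ HasCompactSupport φ ∧
      (∀ x : Euc n, c₀ ^ 2 ≤ x i ^ 2 + x j ^ 2 → φ x = 0) ∧ ∃ x : Euc n, ‖x‖ = 1 ∧ φ x ≠ 0 :=
  ⟨fun _ hT hA hne => ⟨fun hE => hne (ball_of_ellipsoid h0 h1 hA hE), fun _ h2 h3 =>
    isInvariant hT.isCompact hT.strictConvex.convex hij h0 hA h2 h3⟩,
    fun _ hφ hs h hx => perturbation h0 h1 hφ hs h hx,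
    exists_phi hn hij h0⟩

end Pool.Agent.Results.MP_d967a3_an.InnerHypersurface
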